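import Pool.Agent.Lib.MP_a572be_co.Top
import Pool.Agent.Lib.MP_a572be_co.Gamma

/-!
# Codegree Turan densities of long tight cycles can be smaller than `1/3`

The definitions `KGraph`, `KGraph.nbr`, `minCodeg`, `Contains`, `exCodeg` and `tightCycle` are in
`Pool/Agent/Lib/MP_a572be_co/Defs.lean`. We prove that for every `r > 1` coprime to `6` and all
large `d` the codegree Turan density of the `rd`-uniform tight cycle on `ℓ` vertices is smaller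
than `1/3`, with a gap not depending on `ℓ`, for all large multiples `ℓ` of `d`. For
`ℓ = d (r m + 1)` one has `rd / gcd(rd, ℓ) = r`, which is odd, so this disproves Q1.
-/

namespace Pool.Agent.Results.MP_a572be_co.TightCycles

open Filter Topology Pool.Agent.Lib.MP_a572be_co

/-- `x` is the codegree Turan density of `F`, that is, `x = lim ex_{k-1}(n,F)/n`. -/
def IsDensity {k : ℕ} {W : Type} (F : KGraph k W) (x : ℝ) : Prop :=
  Tendsto (fun n : ℕ => (exCodeg n F : ℝ) / n) atTop (𝓝 x)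

/-- **Main theorem.** For every `r > 1` coprime to `6` and every sufficiently large `d` there is
`ε > 0` such that `γ(C^{rd}_ℓ) ≤ 1/3 - ε` for all large multiples `ℓ` of `d`; hence the statement
of Q1 is false. -/
theorem result :
    (∀ r : ℕ, 1 < r → Nat.Coprime r 6 → ∃ d₀ : ℕ, ∀ d ≥ d₀, ∃ ε : ℝ, 0 < ε ∧
      ∃ ℓ₀ : ℕ, ∀ ℓ ≥ ℓ₀, d ∣ ℓ →
        ∃ γ : ℝ, IsDensity (tightCycle (r * d) ℓ) γ ∧ γ ≤ 1 / 3 - ε) ∧
    ¬ (∀ k : ℕ, 3 ≤ k → ∃ ℓ₀ : ℕ, ∀ ℓ ≥ ℓ₀, ¬ k ∣ ℓ →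
      IsDensity (tightCycle k ℓ) (if 2 ∣ k / Nat.gcd k ℓ then 1 / 2 else 1 / 3)) := by
  have main : ∀ r : ℕ, 1 < r → Nat.Coprime r 6 → ∃ d₀ : ℕ, ∀ d ≥ d₀, ∃ ε : ℝ, 0 < ε ∧
      ∃ ℓ₀ : ℕ, ∀ ℓ ≥ ℓ₀, d ∣ ℓ →
        ∃ γ : ℝ, IsDensity (tightCycle (r * d) ℓ) γ ∧ γ ≤ 1 / 3 - ε := by
    intro r hr h6
    obtain ⟨d0, h⟩ := exCodeg_le hr h6
    refine ⟨max d0 2, fun d hd => ?_⟩
    have hd0 : d0 ≤ d := (le_max_left _ _).trans hd
    have hd2 : 2 ≤ d := (le_max_right _ _).trans hd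
    obtain ⟨ε, hε, ℓ0, hℓ⟩ := h d hd0
    refine ⟨ε, hε, ℓ0, fun ℓ h1 h2 => ?_⟩
    have hk : 2 ≤ r * d := by nlinarith
    refine ⟨gamma (tightCycle (r * d) ℓ), tendsto_gamma hk _, ?_⟩
    refine le_of_tendsto (tendsto_gamma hk (tightCycle (r * d) ℓ)) ?_
    filter_upwards [hℓ ℓ h1 h2, eventually_gt_atTop 0] with n hn hn0
    have hnR : (0 : ℝ) < n := by exact_mod_cast hn0
    rwa [div_le_iff₀ hnR]
  refine ⟨main, fun hQ => ?_⟩
  obtain ⟨d0, h⟩ := main 5 (by norm_num) (by norm_num)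
  obtain ⟨ε, hε, ℓ1, hℓ1⟩ := h (max d0 1) (le_max_left _ _)
  set d := max d0 1 with hd
  have hd1 : 1 ≤ d := le_max_right _ _
  obtain ⟨ℓ2, hℓ2⟩ := hQ (5 * d) (by omega)
  set m := max ℓ1 ℓ2 with hm
  have hmℓ1 : ℓ1 ≤ m := le_max_left _ _
  have hmℓ2 : ℓ2 ≤ m := le_max_right _ _
  have hge : m ≤ d * (5 * m + 1) := by nlinarith
  have hnd : ¬ 5 * d ∣ d * (5 * m + 1) := by
    intro hdvd
    rw [mul_comm 5 d] at hdvd
    have h5 : 5 ∣ 5 * m + 1 := Nat.dvd_of_mul_dvd_mul_left (by omega) hdvd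
    omega
  have hgcd : Nat.gcd (5 * d) (d * (5 * m + 1)) = d := by
    rw [mul_comm 5 d, Nat.gcd_mul_left]
    have h1 : Nat.gcd 5 (5 * m + 1) = 1 := by
      rw [Nat.gcd_comm]
      simp
    rw [h1, mul_one]
  have hq : 5 * d / Nat.gcd (5 * d) (d * (5 * m + 1)) = 5 := by
    rw [hgcd]
    exact Nat.mul_div_cancel _ (by omega)
  obtain ⟨γ, hγ, hγle⟩ := hℓ1 (d * (5 * m + 1)) (hmℓ1.trans hge) (Dvd.intro _ rfl)
  have hval := hℓ2 (d * (5 * m + 1)) (hmℓ2.trans hge) hnd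
  rw [hq, if_neg (by norm_num)] at hval
  have heq : γ = 1 / 3 := tendsto_nhds_unique hγ hval
  linarith

end Pool.Agent.Results.MP_a572be_co.TightCycles
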